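import Pool.Agent.H85.Rho.Defs

/-!
# Project RHO, module M: Mertens
-/

set_option autoImplicit false

open Finset Real

namespace Pool.Agent.H85.Rho

theorem pr_eq_primesLE (n : ℕ) : pr 0 n = Nat.primesLE n := by
  ext p
  rw [mem_pr, Nat.mem_primesLE]
  constructor
  · rintro ⟨⟨_, h⟩, hp⟩
    exact ⟨h, hp⟩
  · rintro ⟨h, hp⟩
    exact ⟨⟨hp.pos, h⟩, hp⟩

theorem pr_succ (n : ℕ) : pr 0 (n + 1) =
    if (n + 1).Prime then insert (n + 1) (pr 0 n) else pr 0 n := by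
  split_ifs with h
  · ext p
    simp only [mem_insert, mem_pr]
    constructor
    · rintro ⟨⟨h1, h2⟩, hp⟩
      rcases Nat.lt_or_ge p (n + 1) with h3 | h3
      · exact Or.inr ⟨⟨h1, by omega⟩, hp⟩
      · exact Or.inl (by omega)
    · rintro (rfl | ⟨⟨h1, h2⟩, hp⟩)
      · exact ⟨⟨by omega, le_refl _⟩, h⟩
      · exact ⟨⟨h1, by omega⟩, hp⟩
  · ext p
    simp only [mem_pr]
    constructor
    · rintro ⟨⟨h1, h2⟩, hp⟩
      refine ⟨⟨h1, ?_⟩, hp⟩
      rcases Nat.lt_or_ge p (n + 1) with h3 | h3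
      · omega
      · exact absurd (by rwa [show p = n + 1 by omega] at hp) h
    · rintro ⟨⟨h1, h2⟩, hp⟩
      exact ⟨⟨h1, by omega⟩, hp⟩

theorem not_mem_pr_succ (n : ℕ) : (n + 1) ∉ pr 0 n := by
  rw [mem_pr]
  omega

/-- `∏_{p ≤ n} p^{⌊n/p⌋}` divides `n!` -/
theorem prod_pow_dvd_factorial (n : ℕ) : ∏ p ∈ pr 0 n, p ^ (n / p) ∣ n.factorial := by
  refine Finset.prod_dvd_of_isRelPrime ?_ ?_
  · intro p hp q hq hpq
    have hp' := (mem_pr.mp (Finset.mem_coe.mp hp)).2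
    have hq' := (mem_pr.mp (Finset.mem_coe.mp hq)).2
    exact Nat.coprime_iff_isRelPrime.mp
      (Nat.Coprime.pow _ _ ((Nat.coprime_primes hp' hq').mpr hpq))
  · intro p hp
    obtain ⟨⟨_, hpn⟩, hp'⟩ := mem_pr.mp hp
    rw [Nat.Prime.pow_dvd_factorial_iff hp' (Nat.lt_succ_self _)]
    have h1 : 1 ∈ Finset.Ico 1 (Nat.log p n).succ := by
      rw [Finset.mem_Ico]
      refine ⟨le_refl _, ?_⟩
      have : 0 < Nat.log p n := Nat.log_pos hp'.one_lt hpn
      omega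
    calc n / p = n / p ^ 1 := by rw [pow_one]
      _ ≤ ∑ i ∈ Finset.Ico 1 (Nat.log p n).succ, n / p ^ i :=
        Finset.single_le_sum (f := fun i => n / p ^ i) (fun _ _ => Nat.zero_le _) h1

/-- `∑_{p ≤ n} log p / p` -/
noncomputable def AA (n : ℕ) : ℝ := ∑ p ∈ pr 0 n, Real.log p / p

theorem sum_log_eq_theta (n : ℕ) : ∑ p ∈ pr 0 n, Real.log p = Chebyshev.theta n := by
  rw [pr_eq_primesLE, Chebyshev.theta_eq_sum_primesLE_log]

theorem AA_le {n : ℕ} (hn : 1 ≤ n) : AA n ≤ Real.log n + Real.log 4 := by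
  have hn' : (0 : ℝ) < n := by exact_mod_cast hn
  have h1 : (∑ p ∈ pr 0 n, ((n / p : ℕ) : ℝ) * Real.log p) ≤ n * Real.log n := by
    have h2 : ((∏ p ∈ pr 0 n, p ^ (n / p) : ℕ) : ℝ) ≤ (n : ℝ) ^ n := by
      have h3 : (∏ p ∈ pr 0 n, p ^ (n / p)) ≤ n ^ n :=
        (Nat.le_of_dvd (Nat.factorial_pos n) (prod_pow_dvd_factorial n)).trans
          (Nat.factorial_le_pow n)
      exact_mod_cast h3
    have hpos : (0 : ℝ) < ((∏ p ∈ pr 0 n, p ^ (n / p) : ℕ) : ℝ) := by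
      have : 0 < ∏ p ∈ pr 0 n, p ^ (n / p) :=
        Finset.prod_pos fun p hp => Nat.pow_pos (mem_pr.mp hp).2.pos
      exact_mod_cast this
    have h4 := Real.log_le_log hpos h2
    rw [Real.log_pow] at h4
    rw [Nat.cast_prod, Real.log_prod] at h4
    · refine le_trans (le_of_eq ?_) h4
      refine Finset.sum_congr rfl fun p _ => ?_
      rw [Nat.cast_pow, Real.log_pow]
    · intro p hp
      have := (mem_pr.mp hp).2.pos
      positivity
  have h5 : (n : ℝ) * AA n ≤ ∑ p ∈ pr 0 n, (((n / p : ℕ) : ℝ) * Real.log p + Real.log p) := by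
    unfold AA
    rw [Finset.mul_sum]
    refine Finset.sum_le_sum fun p hp => ?_
    have hp' := (mem_pr.mp hp).2
    have hp0 : (0 : ℝ) < p := by exact_mod_cast hp'.pos
    have hlog : 0 ≤ Real.log p := Real.log_nonneg (by exact_mod_cast hp'.one_lt.le)
    have h6 : (n : ℝ) / p ≤ ((n / p : ℕ) : ℝ) + 1 := by
      rw [div_le_iff₀ hp0]
      have : n < (n / p + 1) * p := by
        rw [add_mul, one_mul]
        exact Nat.lt_div_mul_add hp'.pos
      exact_mod_cast this.le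
    calc (n : ℝ) * (Real.log p / p) = (n : ℝ) / p * Real.log p := by ring
      _ ≤ (((n / p : ℕ) : ℝ) + 1) * Real.log p := mul_le_mul_of_nonneg_right h6 hlog
      _ = _ := by ring
  rw [Finset.sum_add_distrib, sum_log_eq_theta] at h5
  have h7 := Chebyshev.theta_le_log4_mul_x (x := (n : ℝ)) hn'.le
  have h8 : (n : ℝ) * AA n ≤ n * (Real.log n + Real.log 4) := by nlinarith
  exact le_of_mul_le_mul_left h8 hn'

/-- `∑_{p ≤ n} 1 / p` -/
noncomputable def SS (n : ℕ) : ℝ := ∑ p ∈ pr 0 n, (1 : ℝ) / p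

theorem SS_sub_succ {n : ℕ} (hn : 2 ≤ n) :
    SS (n + 1) - AA (n + 1) / Real.log (n + 1 : ℕ) =
      SS n - AA n / Real.log n + AA n * (1 / Real.log n - 1 / Real.log (n + 1 : ℕ)) := by
  have hl : 0 < Real.log ((n + 1 : ℕ) : ℝ) := Real.log_pos (by push_cast; norm_cast; omega)
  unfold SS AA
  rw [pr_succ]
  split_ifs with h
  · rw [Finset.sum_insert (not_mem_pr_succ n), Finset.sum_insert (not_mem_pr_succ n)]
    have : ((n + 1 : ℕ) : ℝ) ≠ 0 := by positivity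
    field_simp
    ring
  · ring

theorem log_ratio {n : ℕ} (hn : 2 ≤ n) :
    Real.log n * (1 / Real.log n - 1 / Real.log (n + 1 : ℕ)) ≤
      Real.log (Real.log (n + 1 : ℕ)) - Real.log (Real.log n) := by
  have hl1 : 0 < Real.log (n : ℝ) := Real.log_pos (by norm_cast)
  have hl2 : 0 < Real.log ((n + 1 : ℕ) : ℝ) := Real.log_pos (by norm_cast; omega)
  have h := Real.one_sub_inv_le_log_of_pos (x := Real.log ((n + 1 : ℕ) : ℝ) / Real.log n)
    (div_pos hl2 hl1)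
  rw [Real.log_div hl2.ne' hl1.ne', inv_div] at h
  refine le_trans (le_of_eq ?_) h
  field_simp

theorem mertens_aux {n : ℕ} (hn : 2 ≤ n) :
    SS n - AA n / Real.log n ≤ Real.log (Real.log n) - Real.log (Real.log 2) +
      Real.log 4 * (1 / Real.log 2 - 1 / Real.log n) := by
  induction n, hn using Nat.le_induction with
  | base =>
    have h2 : pr 0 2 = {2} := by decide
    unfold SS AA
    rw [h2]
    simp only [Finset.sum_singleton, Nat.cast_ofNat, sub_self, mul_zero, add_zero]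
    have : Real.log 2 ≠ 0 := (Real.log_pos (by norm_num)).ne'
    field_simp
    norm_num
  | succ n hn ih =>
    rw [SS_sub_succ hn]
    have hl1 : 0 < Real.log (n : ℝ) := Real.log_pos (by norm_cast)
    have hl2 : 0 < Real.log ((n + 1 : ℕ) : ℝ) := Real.log_pos (by norm_cast; omega)
    have hmono : Real.log (n : ℝ) ≤ Real.log ((n + 1 : ℕ) : ℝ) :=
      Real.log_le_log (by positivity) (by push_cast; linarith)
    have hd : 0 ≤ 1 / Real.log n - 1 / Real.log (n + 1 : ℕ) :=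
      sub_nonneg.mpr (one_div_le_one_div_of_le hl1 hmono)
    have h1 := mul_le_mul_of_nonneg_right (AA_le (by omega : 1 ≤ n)) hd
    have h2 := log_ratio hn
    nlinarith [h1, h2, ih]

theorem mertens_recip' : ∃ C : ℝ, 0 < C ∧ ∀ n : ℕ, 2 ≤ n →
    ∑ p ∈ pr 0 n, (1 : ℝ) / p ≤ Real.log (Real.log n) + C := by
  have hl2 : 0 < Real.log 2 := Real.log_pos (by norm_num)
  have hl4 : 0 < Real.log 4 := Real.log_pos (by norm_num)
  have hll2 : Real.log (Real.log 2) ≤ 0 :=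
    Real.log_nonpos hl2.le (by linarith [Real.log_two_lt_d9])
  refine ⟨1 + Real.log 4 / Real.log 2 - Real.log (Real.log 2), by
    have : 0 < Real.log 4 / Real.log 2 := by positivity
    linarith, fun n hn => ?_⟩
  have h1 := mertens_aux hn
  have hl1 : 0 < Real.log (n : ℝ) := Real.log_pos (by norm_cast)
  have h2 : AA n / Real.log n ≤ 1 + Real.log 4 / Real.log n := by
    rw [div_le_iff₀ hl1, add_mul, one_mul, div_mul_cancel₀ _ hl1.ne']
    exact AA_le (by omega)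
  have h3 : SS n = ∑ p ∈ pr 0 n, (1 : ℝ) / p := rfl
  rw [← h3]
  have h4 : Real.log 4 * (1 / Real.log 2 - 1 / Real.log n) =
    Real.log 4 / Real.log 2 - Real.log 4 / Real.log n := by ring
  rw [h4] at h1
  linarith

theorem mertens_recip : ∃ C : ℝ, 0 < C ∧ ∀ n : ℕ, 3 ≤ n →
    ∑ p ∈ pr 0 n, (1 : ℝ) / p ≤ Real.log (Real.log n) + C := by
  obtain ⟨C, hC, h⟩ := mertens_recip'
  exact ⟨C, hC, fun n hn => h n (by omega)⟩

theorem sum_sq_le (n : ℕ) : ∑ p ∈ pr 0 n, (1 : ℝ) / (p : ℝ) ^ 2 ≤ 1 := by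
  have h : ∀ m : ℕ, 1 ≤ m → ∑ k ∈ Finset.Ioc 1 m, (1 : ℝ) / (k : ℝ) ^ 2 ≤ 1 - 1 / m := by
    intro m hm
    induction m, hm using Nat.le_induction with
    | base => simp
    | succ m hm ih =>
      rw [Finset.sum_Ioc_succ_top (by omega)]
      have hm' : (0 : ℝ) < m := by exact_mod_cast hm
      have h2 : (1 : ℝ) / ((m + 1 : ℕ) : ℝ) ^ 2 ≤ 1 / m - 1 / ((m + 1 : ℕ) : ℝ) := by
        push_cast
        rw [div_sub_div _ _ hm'.ne' (by positivity), div_le_div_iff₀ (by positivity) (by positivity)]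
        nlinarith
      linarith
  rcases Nat.eq_zero_or_pos n with rfl | hn
  · simp [pr]
  · refine le_trans (Finset.sum_le_sum_of_subset_of_nonneg (t := Finset.Ioc 1 n) ?_ ?_)
      ((h n hn).trans (by
        have : (0 : ℝ) ≤ 1 / n := by positivity
        linarith))
    · intro p hp
      obtain ⟨⟨_, h2⟩, hp'⟩ := mem_pr.mp hp
      exact Finset.mem_Ioc.mpr ⟨hp'.one_lt, h2⟩
    · intro i _ _
      positivity

theorem one_sub_ge_exp {x : ℝ} (h0 : 0 ≤ x) (h1 : x ≤ 1 / 2) :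
    Real.exp (-(x + 2 * x ^ 2)) ≤ 1 - x := by
  have hp : 0 < 1 - x := by linarith
  rw [← Real.le_log_iff_exp_le hp]
  have h := Real.one_sub_inv_le_log_of_pos hp
  refine le_trans ?_ h
  have : (1 - x)⁻¹ ≤ 1 + x + 2 * x ^ 2 := by
    rw [inv_le_iff_one_le_mul₀ hp]
    nlinarith [sq_nonneg x, mul_nonneg h0 (mul_nonneg h0 (sub_nonneg.mpr h1))]
  linarith

theorem mertens_prod : ∃ C : ℝ, 0 < C ∧ ∀ n : ℕ, 2 ≤ n →
    1 / Real.log n ≤ C * ∏ p ∈ pr 0 n, (1 - (1 : ℝ) / p) := by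
  obtain ⟨C, hC, h⟩ := mertens_recip'
  refine ⟨Real.exp (C + 2), Real.exp_pos _, fun n hn => ?_⟩
  have hl1 : 0 < Real.log (n : ℝ) := Real.log_pos (by norm_cast)
  have h1 : Real.exp (-(Real.log (Real.log n) + C + 2)) ≤ ∏ p ∈ pr 0 n, (1 - (1 : ℝ) / p) := by
    calc Real.exp (-(Real.log (Real.log n) + C + 2))
        ≤ Real.exp (∑ p ∈ pr 0 n, (-((1 : ℝ) / p + 2 * (1 / (p : ℝ)) ^ 2))) := by
          refine Real.exp_le_exp.mpr ?_
          rw [Finset.sum_neg_distrib, Finset.sum_add_distrib, ← Finset.mul_sum]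
          have h2 := h n hn
          have h3 := sum_sq_le n
          simp only [one_div_pow] at h3 ⊢
          linarith
      _ = ∏ p ∈ pr 0 n, Real.exp (-((1 : ℝ) / p + 2 * (1 / (p : ℝ)) ^ 2)) := Real.exp_sum _ _
      _ ≤ ∏ p ∈ pr 0 n, (1 - (1 : ℝ) / p) := by
          refine Finset.prod_le_prod (fun p _ => (Real.exp_pos _).le) fun p hp => ?_
          refine one_sub_ge_exp (by positivity) ?_
          have hp2 : (2 : ℝ) ≤ p := by exact_mod_cast (mem_pr.mp hp).2.two_le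
          exact one_div_le_one_div_of_le (by norm_num) hp2
  have h4 : Real.exp (C + 2) * Real.exp (-(Real.log (Real.log n) + C + 2)) = 1 / Real.log n := by
    rw [← Real.exp_add, show C + 2 + -(Real.log (Real.log n) + C + 2) = -Real.log (Real.log n) by ring,
      Real.exp_neg, Real.exp_log hl1, one_div]
  rw [← h4]
  exact mul_le_mul_of_nonneg_left h1 (Real.exp_pos _).le

/-- `n ↦ 1/n` as a monoid homomorphism -/
noncomputable def invHom : ℕ →* ℝ where
  toFun n := ((n : ℝ))⁻¹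
  map_one' := by simp
  map_mul' m n := by push_cast; rw [mul_inv]

theorem mertens_prod_up (n : ℕ) (hn : 2 ≤ n) :
    ∏ p ∈ pr 0 n, (1 - (1 : ℝ) / p) ≤ 1 / Real.log n := by
  have hl1 : 0 < Real.log (n : ℝ) := Real.log_pos (by norm_cast)
  have hf : ∀ {p : ℕ}, p.Prime → ‖invHom p‖ < 1 := by
    intro p hp
    have hp1 : (1 : ℝ) < p := by exact_mod_cast hp.one_lt
    change ‖((p : ℝ))⁻¹‖ < 1
    rw [norm_inv, Real.norm_of_nonneg (by positivity)]
    exact inv_lt_one_of_one_lt₀ hp1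
  obtain ⟨hs, hsum⟩ := EulerProduct.summable_and_hasSum_smoothNumbers_prod_primesBelow_geometric
    hf (n + 1)
  have hpr : Nat.primesBelow (n + 1) = pr 0 n := (pr_eq_primesLE n).symm
  rw [hpr] at hsum
  have h1 : Real.log n ≤ ∏ p ∈ pr 0 n, (1 - invHom p)⁻¹ := by
    rw [← hsum.tsum_eq]
    have h2 : Real.log ((n + 1 : ℕ) : ℝ) ≤ ((harmonic n : ℚ) : ℝ) := log_add_one_le_harmonic n
    have h3 : Real.log (n : ℝ) ≤ Real.log ((n + 1 : ℕ) : ℝ) :=
      Real.log_le_log (by positivity) (by push_cast; linarith)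
    refine (h3.trans h2).trans ?_
    rw [harmonic_eq_sum_Icc]
    push_cast
    have hmem : ∀ m ∈ Finset.Icc 1 n, m ∈ (n + 1).smoothNumbers := by
      intro m hm
      rw [Finset.mem_Icc] at hm
      rw [Nat.mem_smoothNumbers']
      intro p hp hpm
      have := Nat.le_of_dvd (by omega) hpm
      omega
    have h4 : ∑ m ∈ Finset.Icc 1 n, ((m : ℝ))⁻¹ =
        ∑ m ∈ (Finset.Icc 1 n).attach, invHom (m : ℕ) := by
      rw [Finset.sum_attach (Finset.Icc 1 n) (fun m => invHom m)]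
      rfl
    rw [h4]
    let e : {x // x ∈ Finset.Icc 1 n} ↪ (n + 1).smoothNumbers :=
      ⟨fun m => ⟨m.1, hmem m.1 m.2⟩, fun a b hab => Subtype.ext (by
        simpa using congrArg Subtype.val hab)⟩
    have h5 := (hsum.summable).sum_le_tsum ((Finset.Icc 1 n).attach.map e) (fun m _ => by
      change (0 : ℝ) ≤ ((m : ℕ) : ℝ)⁻¹
      positivity)
    rw [Finset.sum_map] at h5
    exact h5
  have hpos : ∀ p ∈ pr 0 n, 0 < 1 - (1 : ℝ) / p := by
    intro p hp
    have hp1 : (1 : ℝ) < p := by exact_mod_cast (mem_pr.mp hp).2.one_lt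
    rw [sub_pos, div_lt_one (by linarith)]
    exact hp1
  have hP : 0 < ∏ p ∈ pr 0 n, (1 - (1 : ℝ) / p) := Finset.prod_pos hpos
  have h6 : ∏ p ∈ pr 0 n, (1 - invHom p)⁻¹ = (∏ p ∈ pr 0 n, (1 - (1 : ℝ) / p))⁻¹ := by
    rw [Finset.prod_inv_distrib]
    simp only [one_div]
    rfl
  rw [h6] at h1
  rw [le_div_iff₀ hl1]
  calc (∏ p ∈ pr 0 n, (1 - (1 : ℝ) / p)) * Real.log n
      ≤ (∏ p ∈ pr 0 n, (1 - (1 : ℝ) / p)) * (∏ p ∈ pr 0 n, (1 - (1 : ℝ) / p))⁻¹ :=
        mul_le_mul_of_nonneg_left h1 hP.le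
    _ = 1 := mul_inv_cancel₀ hP.ne'

end Pool.Agent.H85.Rho
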