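import Pool.Agent.H51.Rho.M
import Pool.Agent.H86.BtWeak

/-!
# Project RHO, module F: Selberg's sieve in a progression
-/

set_option autoImplicit false

open Finset Real
open scoped ArithmeticFunction.Moebius

namespace Pool.Agent.H51.Rho

open Pool.Agent.H86.BtWeak (mem_S S_dvd card_mult)

noncomputable section

/-- a divisor closed set of squarefree numbers -/
structure Good (T : Finset ℕ) : Prop where
  pos : ∀ d ∈ T, 1 ≤ d
  sq : ∀ d ∈ T, Squarefree d
  dvd : ∀ d ∈ T, ∀ e, e ∣ d → e ∈ T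
  one : 1 ∈ T

/-- the sum of `1/φ` -/
def GT (T : Finset ℕ) : ℝ := ∑ l ∈ T, 1 / (Nat.totient l : ℝ)

/-- Selberg weights. -/
def lamT (T : Finset ℕ) (d : ℕ) : ℝ :=
  (μ d : ℝ) * d / GT T * ∑ l ∈ T.filter (d ∣ ·), 1 / (Nat.totient l : ℝ)

variable {T : Finset ℕ}

theorem GT_pos (hT : Good T) : 0 < GT T := by
  unfold GT
  apply Finset.sum_pos
  · intro l hl
    have := hT.pos l hl
    have h2 : 0 < Nat.totient l := Nat.totient_pos.2 this
    positivity
  · exact ⟨1, hT.one⟩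

theorem lamT_one (hT : Good T) : lamT T 1 = 1 := by
  have := (GT_pos hT).ne'
  unfold lamT
  simp only [ArithmeticFunction.moebius_apply_one, Int.cast_one, Nat.cast_one, mul_one, one_dvd,
    Finset.filter_true]
  change 1 / GT T * GT T = 1
  field_simp

theorem abs_lamT_le (hT : Good T) (d : ℕ) : |lamT T d| ≤ d := by
  have hG := GT_pos hT
  have h1 : ∑ l ∈ T.filter (d ∣ ·), 1 / (Nat.totient l : ℝ) ≤ GT T := by
    unfold GT
    apply Finset.sum_le_sum_of_subset_of_nonneg (Finset.filter_subset _ _)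
    intros; positivity
  have h0 : 0 ≤ ∑ l ∈ T.filter (d ∣ ·), 1 / (Nat.totient l : ℝ) := by positivity
  unfold lamT
  have h2 : |(μ d : ℝ)| ≤ 1 := by
    have := ArithmeticFunction.abs_moebius_le_one (n := d)
    exact_mod_cast this
  rw [abs_mul, abs_div, abs_mul, abs_of_nonneg h0, abs_of_pos hG, Nat.abs_cast]
  calc |(μ d : ℝ)| * d / GT T * ∑ l ∈ T.filter (d ∣ ·), 1 / (Nat.totient l : ℝ)
      ≤ 1 * d / GT T * GT T := by gcongr
    _ = d := by field_simp

theorem sumT_moebius_between (hT : Good T) {l m : ℕ} (hm : m ∈ T) (hl : l ∣ m) :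
    ∑ d ∈ T.filter (fun d => l ∣ d ∧ d ∣ m), (μ d : ℝ) = if m = l then (μ l : ℝ) else 0 := by
  obtain ⟨k, rfl⟩ := hl
  have hpos : 0 < l * k := hT.pos _ hm
  have hl0 : 0 < l := Nat.pos_of_mul_pos_right hpos
  have hk0 : 0 < k := Nat.pos_of_mul_pos_left hpos
  have hcop : Nat.Coprime l k := Nat.coprime_of_squarefree_mul (hT.sq _ hm)
  have e1 : T.filter (fun d => l ∣ d ∧ d ∣ l * k) = (k.divisors).image (fun e => l * e) := by
    ext d
    simp only [Finset.mem_filter, Finset.mem_image, Nat.mem_divisors]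
    constructor
    · rintro ⟨hd, ⟨e, rfl⟩, hdk⟩
      refine ⟨e, ⟨(Nat.mul_dvd_mul_iff_left hl0).1 hdk, hk0.ne'⟩, rfl⟩
    · rintro ⟨e, ⟨he, -⟩, rfl⟩
      have : l * e ∣ l * k := Nat.mul_dvd_mul_left _ he
      exact ⟨hT.dvd _ hm _ this, Nat.dvd_mul_right _ _, this⟩
  rw [e1, Finset.sum_image]
  · have e2 : ∀ e ∈ k.divisors, (μ (l * e) : ℝ) = (μ l : ℝ) * (μ e : ℝ) := by
      intro e he
      have he' := (Nat.mem_divisors.1 he).1
      have hc : Nat.Coprime l e := Nat.Coprime.coprime_dvd_right he' hcop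
      rw [ArithmeticFunction.isMultiplicative_moebius.map_mul_of_coprime hc]
      push_cast; ring
    rw [Finset.sum_congr rfl e2, ← Finset.mul_sum]
    have e3 : ∑ e ∈ k.divisors, (μ e : ℝ) = if k = 1 then 1 else 0 := by
      have h : (μ * (ArithmeticFunction.zeta : ArithmeticFunction ℤ) : ArithmeticFunction ℤ) k =
          (1 : ArithmeticFunction ℤ) k := by rw [ArithmeticFunction.moebius_mul_coe_zeta]
      rw [ArithmeticFunction.coe_mul_zeta_apply, ArithmeticFunction.one_apply] at h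
      have h2 : ((∑ e ∈ k.divisors, μ e : ℤ) : ℝ) = ((if k = 1 then 1 else 0 : ℤ) : ℝ) := by
        rw [← h]
      push_cast at h2
      exact h2
    rw [e3]
    by_cases hk : k = 1
    · simp [hk]
    · have : ¬ (l * k = l) := by
        intro h
        apply hk
        have : l * k = l * 1 := by omega
        exact Nat.eq_of_mul_eq_mul_left hl0 this
      simp [hk, this]
  · intro a _ b _ h
    exact Nat.eq_of_mul_eq_mul_left hl0 h

theorem diagT (hT : Good T) {l : ℕ} (hl : l ∈ T) :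
    ∑ d ∈ T.filter (l ∣ ·), lamT T d / d = (μ l : ℝ) / (Nat.totient l * GT T) := by
  have hG := GT_pos hT
  have h1 : ∀ d ∈ T.filter (l ∣ ·), lamT T d / d =
      ∑ m ∈ T, if d ∣ m then (μ d : ℝ) * (1 / GT T * (1 / (Nat.totient m : ℝ))) else 0 := by
    intro d hd
    have hd' := (Finset.mem_filter.1 hd).1
    have : (d : ℝ) ≠ 0 := by
      have := hT.pos _ hd'
      positivity
    unfold lamT
    rw [← Finset.sum_filter, ← Finset.mul_sum, ← Finset.mul_sum]
    field_simp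
  rw [Finset.sum_congr rfl h1, Finset.sum_comm]
  have h2 : ∀ m ∈ T, (∑ d ∈ T.filter (l ∣ ·),
      if d ∣ m then (μ d : ℝ) * (1 / GT T * (1 / (Nat.totient m : ℝ))) else 0) =
      if m = l then (μ l : ℝ) * (1 / GT T * (1 / (Nat.totient m : ℝ))) else 0 := by
    intro m hm
    rw [← Finset.sum_filter, Finset.filter_filter, ← Finset.sum_mul]
    by_cases hlm : l ∣ m
    · rw [sumT_moebius_between hT hm hlm]
      split_ifs <;> simp
    · have e : T.filter (fun d => l ∣ d ∧ d ∣ m) = ∅ := by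
        rw [Finset.filter_eq_empty_iff]
        rintro d - ⟨h, h'⟩
        exact hlm (h.trans h')
      have : m ≠ l := by rintro rfl; exact hlm dvd_rfl
      rw [e]; simp [this]
  rw [Finset.sum_congr rfl h2, Finset.sum_ite_eq' T l, if_pos hl]
  have : (Nat.totient l : ℝ) ≠ 0 := by
    have := Nat.totient_pos.2 (hT.pos _ hl)
    positivity
  field_simp

theorem quadT (hT : Good T) :
    ∑ d₁ ∈ T, ∑ d₂ ∈ T, lamT T d₁ * lamT T d₂ / (Nat.lcm d₁ d₂ : ℝ) = 1 / GT T := by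
  have hG := GT_pos hT
  have h1 : ∀ d₁ ∈ T, ∀ d₂ ∈ T, lamT T d₁ * lamT T d₂ / (Nat.lcm d₁ d₂ : ℝ) =
      ∑ l ∈ T, if l ∣ d₁ ∧ l ∣ d₂ then
        (Nat.totient l : ℝ) * ((lamT T d₁ / d₁) * (lamT T d₂ / d₂)) else 0 := by
    intro d₁ h₁ d₂ h₂
    have p1 : (d₁ : ℝ) ≠ 0 := by
      have := hT.pos _ h₁; positivity
    have p2 : (d₂ : ℝ) ≠ 0 := by
      have := hT.pos _ h₂; positivity
    rw [← Finset.sum_filter, ← Finset.sum_mul]
    have e1 : T.filter (fun l => l ∣ d₁ ∧ l ∣ d₂) = (Nat.gcd d₁ d₂).divisors := by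
      ext l
      simp only [Finset.mem_filter, Nat.mem_divisors, Nat.dvd_gcd_iff]
      constructor
      · rintro ⟨-, h⟩
        refine ⟨h, ?_⟩
        exact (Nat.gcd_pos_of_pos_left _ (hT.pos _ h₁)).ne'
      · rintro ⟨h, -⟩
        exact ⟨hT.dvd _ h₁ _ h.1, h⟩
    rw [e1]
    have e2 : (∑ l ∈ (Nat.gcd d₁ d₂).divisors, (Nat.totient l : ℝ)) = (Nat.gcd d₁ d₂ : ℝ) := by
      exact_mod_cast Nat.sum_totient (Nat.gcd d₁ d₂)
    rw [e2]
    have e3 : (Nat.gcd d₁ d₂ : ℝ) * (Nat.lcm d₁ d₂ : ℝ) = (d₁ : ℝ) * d₂ := by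
      exact_mod_cast Nat.gcd_mul_lcm d₁ d₂
    have p3 : (Nat.lcm d₁ d₂ : ℝ) ≠ 0 := by
      intro h; rw [h, mul_zero] at e3
      exact (mul_ne_zero p1 p2) e3.symm
    field_simp
    linear_combination (-(lamT T d₁ * lamT T d₂)) * e3
  have h2 : ∑ d₁ ∈ T, ∑ d₂ ∈ T, lamT T d₁ * lamT T d₂ / (Nat.lcm d₁ d₂ : ℝ) =
      ∑ l ∈ T, (Nat.totient l : ℝ) * (∑ d ∈ T.filter (l ∣ ·), lamT T d / d) ^ 2 := by
    rw [Finset.sum_congr rfl (fun d₁ h₁ => Finset.sum_congr rfl (h1 d₁ h₁))]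
    rw [Finset.sum_congr rfl (fun d₁ _ => Finset.sum_comm), Finset.sum_comm]
    refine Finset.sum_congr rfl fun l _ => ?_
    rw [sq, Finset.sum_mul_sum, Finset.mul_sum, Finset.sum_filter]
    refine Finset.sum_congr rfl fun d₁ _ => ?_
    by_cases h : l ∣ d₁
    · simp only [h, true_and, if_true]
      rw [Finset.mul_sum, Finset.sum_filter]
    · simp [h]
  rw [h2]
  have h3 : ∀ l ∈ T, (Nat.totient l : ℝ) * (∑ d ∈ T.filter (l ∣ ·), lamT T d / d) ^ 2 =
      1 / GT T ^ 2 * (1 / (Nat.totient l : ℝ)) := by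
    intro l hl
    rw [diagT hT hl]
    have : (Nat.totient l : ℝ) ≠ 0 := by
      have := Nat.totient_pos.2 (hT.pos _ hl)
      positivity
    have hmu : (μ l : ℝ) ^ 2 = 1 := by
      exact_mod_cast ArithmeticFunction.moebius_sq_eq_one_of_squarefree (hT.sq _ hl)
    rw [div_pow, hmu]
    field_simp
  rw [Finset.sum_congr rfl h3, ← Finset.mul_sum]
  change 1 / GT T ^ 2 * GT T = 1 / GT T
  field_simp

/-- the number of `t < X` with `m ∣ b + G t`, `(m, G) = 1` -/
theorem card_prog (X b G m : ℕ) (hm : 0 < m) (hc : Nat.Coprime G m) :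
    |(((Finset.range X).filter (fun t => m ∣ b + G * t)).card : ℝ) - X / m| ≤ 1 := by
  have : NeZero m := ⟨hm.ne'⟩
  set v : ℕ := (-(b : ZMod m) * (G : ZMod m)⁻¹).val with hv
  have hiff : ∀ t : ℕ, m ∣ b + G * t ↔ t ≡ v [MOD m] := by
    intro t
    have hu : (G : ZMod m) * (G : ZMod m)⁻¹ = 1 := ZMod.coe_mul_inv_eq_one G hc
    have e1 : (v : ZMod m) = -(b : ZMod m) * (G : ZMod m)⁻¹ := by
      rw [hv, ZMod.natCast_val, ZMod.cast_id', id]
    rw [← ZMod.natCast_eq_natCast_iff, e1, ← ZMod.natCast_eq_zero_iff]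
    push_cast
    constructor
    · intro h
      have : (G : ZMod m) * t = -b := by linear_combination h
      calc (t : ZMod m) = (G : ZMod m) * t * (G : ZMod m)⁻¹ := by
            linear_combination (-(t : ZMod m)) * hu
        _ = _ := by rw [this]
    · intro h
      rw [h]
      linear_combination (-(b : ZMod m)) * hu
  have h1 : ((Finset.range X).filter (fun t => m ∣ b + G * t)).card =
      X.count (· ≡ v [MOD m]) := by
    rw [Nat.count_eq_card_filter_range]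
    congr 1
    exact Finset.filter_congr fun t _ => hiff t
  rw [h1, Nat.count_modEq_card X hm]
  have hm' : (0 : ℝ) < m := by exact_mod_cast hm
  have a2 : ((X / m : ℕ) : ℝ) ≤ (X : ℝ) / m := Nat.cast_div_le
  have a4 : ((X : ℕ) : ℝ) / m < (X / m : ℕ) + 1 := by
    rw [div_lt_iff₀ hm']
    have : X < (X / m + 1) * m := Nat.lt_mul_of_div_lt (Nat.lt_succ_self _) hm
    exact_mod_cast this
  rw [abs_le]
  split_ifs
  · push_cast
    constructor <;> linarith
  · push_cast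
    constructor <;> linarith

/-- squarefree numbers in `[1,R]` with all prime factors `> z` -/
def Tz (z R : ℕ) : Finset ℕ :=
  (Pool.Agent.H86.BtWeak.S R).filter (fun d => ∀ p ∈ d.primeFactors, z < p)

theorem mem_Tz {z R d : ℕ} : d ∈ Tz z R ↔ ((1 ≤ d ∧ d ≤ R) ∧ Squarefree d) ∧
    ∀ p ∈ d.primeFactors, z < p := by
  rw [Tz, Finset.mem_filter, mem_S]

theorem good_Tz {z R : ℕ} (hR : 1 ≤ R) : Good (Tz z R) where
  pos d hd := (mem_Tz.mp hd).1.1.1
  sq d hd := (mem_Tz.mp hd).1.2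
  dvd d hd e he := by
    rw [Tz, Finset.mem_filter] at hd ⊢
    refine ⟨S_dvd hd.1 he, fun p hp => hd.2 p ?_⟩
    exact Nat.primeFactors_mono he (mem_S.mp hd.1).2.ne_zero hp
  one := by
    rw [mem_Tz]
    exact ⟨⟨⟨le_refl _, hR⟩, squarefree_one⟩, by simp⟩

/-- Selberg's upper bound -/
theorem sieve_le {z R : ℕ} (hR : 1 ≤ R) (G b X : ℕ) (hG : ∀ l, l.Prime → z < l → ¬ l ∣ G) :
    (((Finset.range X).filter (fun t => ∀ l ∈ Pool.Agent.H85.Rho.pr z R,
      ¬ l ∣ b + G * t)).card : ℝ) ≤ X / GT (Tz z R) + (R : ℝ) ^ 4 := by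
  classical
  set T := Tz z R with hTdef
  have hT : Good T := good_Tz hR
  set I := Finset.range X with hI
  have hnn : ∀ n, 0 ≤ (∑ d ∈ T.filter (· ∣ n), lamT T d) ^ 2 := fun n => sq_nonneg _
  have h1 : ((I.filter (fun t => ∀ l ∈ Pool.Agent.H85.Rho.pr z R, ¬ l ∣ b + G * t)).card : ℝ) ≤
      ∑ n ∈ I, (∑ d ∈ T.filter (· ∣ b + G * n), lamT T d) ^ 2 := by
    rw [Finset.card_eq_sum_ones, Nat.cast_sum]
    calc ∑ n ∈ I.filter (fun t => ∀ l ∈ Pool.Agent.H85.Rho.pr z R, ¬ l ∣ b + G * t), ((1 : ℕ) : ℝ)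
        ≤ ∑ n ∈ I.filter (fun t => ∀ l ∈ Pool.Agent.H85.Rho.pr z R, ¬ l ∣ b + G * t),
            (∑ d ∈ T.filter (· ∣ b + G * n), lamT T d) ^ 2 := by
          apply Finset.sum_le_sum
          intro n hn
          have hn2 := (Finset.mem_filter.mp hn).2
          have e : T.filter (· ∣ b + G * n) = {1} := by
            ext d
            simp only [Finset.mem_filter, Finset.mem_singleton]
            constructor
            · rintro ⟨hd, hdn⟩
              by_contra hd1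
              obtain ⟨l, hl, hld⟩ := Nat.exists_prime_and_dvd hd1
              have hd' := mem_Tz.mp hd
              have hle : l ≤ d := Nat.le_of_dvd (by omega) hld
              have hzl : z < l := hd'.2 l (Nat.mem_primeFactors.mpr ⟨hl, hld, by omega⟩)
              exact hn2 l (Pool.Agent.H85.Rho.mem_pr.mpr ⟨⟨hzl, by omega⟩, hl⟩) (hld.trans hdn)
            · rintro rfl
              exact ⟨hT.one, one_dvd _⟩
          rw [e, Finset.sum_singleton, lamT_one hT]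
          norm_num
      _ ≤ ∑ n ∈ I, (∑ d ∈ T.filter (· ∣ b + G * n), lamT T d) ^ 2 :=
          Finset.sum_le_sum_of_subset_of_nonneg (Finset.filter_subset _ _) (fun n _ _ => hnn _)
  have h2 : ∑ n ∈ I, (∑ d ∈ T.filter (· ∣ b + G * n), lamT T d) ^ 2 =
      ∑ d₁ ∈ T, ∑ d₂ ∈ T, lamT T d₁ * lamT T d₂ *
        ((I.filter (fun t => Nat.lcm d₁ d₂ ∣ b + G * t)).card : ℝ) := by
    have : ∀ n ∈ I, (∑ d ∈ T.filter (· ∣ b + G * n), lamT T d) ^ 2 =
        ∑ d₁ ∈ T, ∑ d₂ ∈ T, if Nat.lcm d₁ d₂ ∣ b + G * n then lamT T d₁ * lamT T d₂ else 0 := by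
      intro n _
      rw [sq, Finset.sum_mul_sum, Finset.sum_filter]
      refine Finset.sum_congr rfl fun d₁ _ => ?_
      by_cases hd : d₁ ∣ b + G * n
      · simp only [hd, if_true, Nat.lcm_dvd_iff, true_and]
        rw [Finset.sum_filter]
      · simp [hd, Nat.lcm_dvd_iff]
    rw [Finset.sum_congr rfl this, Finset.sum_comm]
    refine Finset.sum_congr rfl fun d₁ _ => ?_
    rw [Finset.sum_comm]
    refine Finset.sum_congr rfl fun d₂ _ => ?_
    rw [← Finset.sum_filter, Finset.sum_const, nsmul_eq_mul]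
    ring
  have h3 : ∑ d₁ ∈ T, ∑ d₂ ∈ T, lamT T d₁ * lamT T d₂ *
        ((I.filter (fun t => Nat.lcm d₁ d₂ ∣ b + G * t)).card : ℝ) ≤
      ∑ d₁ ∈ T, ∑ d₂ ∈ T, (X * (lamT T d₁ * lamT T d₂ / (Nat.lcm d₁ d₂ : ℝ)) +
        |lamT T d₁| * |lamT T d₂|) := by
    refine Finset.sum_le_sum fun d₁ hd₁ => Finset.sum_le_sum fun d₂ hd₂ => ?_
    have hpos : 0 < Nat.lcm d₁ d₂ := Nat.lcm_pos (hT.pos _ hd₁) (hT.pos _ hd₂)
    have hcop : Nat.Coprime G (Nat.lcm d₁ d₂) := by
      have hcd : ∀ d ∈ T, Nat.Coprime G d := by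
        intro d hd
        refine Nat.Coprime.symm (Nat.coprime_of_dvd fun l hl hld hlG => ?_)
        have hd0 := hT.pos _ hd
        exact hG l hl ((mem_Tz.mp hd).2 l (Nat.mem_primeFactors.mpr ⟨hl, hld, by omega⟩)) hlG
      exact Nat.Coprime.coprime_dvd_right (Nat.lcm_dvd_mul d₁ d₂)
        (Nat.Coprime.mul_right (hcd _ hd₁) (hcd _ hd₂))
    have hc := card_prog X b G _ hpos hcop
    have e : lamT T d₁ * lamT T d₂ * ((I.filter (fun t => Nat.lcm d₁ d₂ ∣ b + G * t)).card : ℝ) =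
        X * (lamT T d₁ * lamT T d₂ / (Nat.lcm d₁ d₂ : ℝ)) +
          (lamT T d₁ * lamT T d₂) *
            (((I.filter (fun t => Nat.lcm d₁ d₂ ∣ b + G * t)).card : ℝ) -
              X / (Nat.lcm d₁ d₂ : ℝ)) := by
      ring
    rw [e]
    have : (lamT T d₁ * lamT T d₂) *
        (((I.filter (fun t => Nat.lcm d₁ d₂ ∣ b + G * t)).card : ℝ) - X / (Nat.lcm d₁ d₂ : ℝ))
        ≤ |lamT T d₁| * |lamT T d₂| := by
      calc _ ≤ |(lamT T d₁ * lamT T d₂) *
            (((I.filter (fun t => Nat.lcm d₁ d₂ ∣ b + G * t)).card : ℝ) -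
              X / (Nat.lcm d₁ d₂ : ℝ))| := le_abs_self _
        _ = |lamT T d₁| * |lamT T d₂| *
            |(((I.filter (fun t => Nat.lcm d₁ d₂ ∣ b + G * t)).card : ℝ) -
              X / (Nat.lcm d₁ d₂ : ℝ))| := by
            rw [abs_mul, abs_mul]
        _ ≤ |lamT T d₁| * |lamT T d₂| * 1 := by
            gcongr
        _ = _ := mul_one _
    linarith
  have h4 : ∑ d₁ ∈ T, ∑ d₂ ∈ T, (X * (lamT T d₁ * lamT T d₂ / (Nat.lcm d₁ d₂ : ℝ)) +
      |lamT T d₁| * |lamT T d₂|) = X * (1 / GT T) + (∑ d ∈ T, |lamT T d|) ^ 2 := by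
    simp_rw [Finset.sum_add_distrib, ← Finset.mul_sum]
    rw [quadT hT, sq, Finset.sum_mul]
  have h5 : ∑ d ∈ T, |lamT T d| ≤ (R : ℝ) ^ 2 := by
    calc ∑ d ∈ T, |lamT T d| ≤ ∑ d ∈ T, (R : ℝ) := by
          refine Finset.sum_le_sum fun d hd => (abs_lamT_le hT d).trans ?_
          exact_mod_cast (mem_Tz.mp hd).1.1.2
      _ = T.card * R := by rw [Finset.sum_const, nsmul_eq_mul]
      _ ≤ R * R := by
          gcongr
          calc T.card ≤ (Finset.Icc 1 R).card := by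
                refine Finset.card_le_card fun d hd => ?_
                exact Finset.mem_Icc.mpr (mem_Tz.mp hd).1.1
            _ = R := by simp
      _ = (R : ℝ) ^ 2 := by ring
  have h6 : (∑ d ∈ T, |lamT T d|) ^ 2 ≤ (R : ℝ) ^ 4 := by
    have h0 : 0 ≤ ∑ d ∈ T, |lamT T d| := by positivity
    calc (∑ d ∈ T, |lamT T d|) ^ 2 ≤ ((R : ℝ) ^ 2) ^ 2 := by gcongr
      _ = _ := by ring
  have h8 : (X : ℝ) * (1 / GT T) = X / GT T := by ring
  linarith

theorem totient_of_squarefree {n : ℕ} (hn : Squarefree n) :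
    (Nat.totient n : ℝ) = ∏ p ∈ n.primeFactors, ((p : ℝ) - 1) := by
  have h := Nat.totient_mul_prod_primeFactors n
  rw [Nat.prod_primeFactors_of_squarefree hn, mul_comm] at h
  have hn0 : 0 < n := Nat.pos_of_ne_zero hn.ne_zero
  have h2 := Nat.eq_of_mul_eq_mul_left hn0 h
  rw [h2, Nat.cast_prod]
  refine Finset.prod_congr rfl fun p hp => ?_
  have := (Nat.prime_of_mem_primeFactors hp).one_lt
  rw [Nat.cast_sub this.le, Nat.cast_one]

/-- the rough part of the sum -/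
theorem G_le (z R : ℕ) (_hR : 1 ≤ R) : Pool.Agent.H86.BtWeak.G R ≤
    (∏ p ∈ Pool.Agent.H85.Rho.pr 0 z, (1 - (1 : ℝ) / p))⁻¹ * GT (Tz z R) := by
  classical
  have e1 : (∏ p ∈ Pool.Agent.H85.Rho.pr 0 z, (1 - (1 : ℝ) / p))⁻¹ =
      ∑ s ∈ (Pool.Agent.H85.Rho.pr 0 z).powerset, ∏ p ∈ s, (1 / ((p : ℝ) - 1)) := by
    rw [← Finset.prod_one_add, ← Finset.prod_inv_distrib]
    refine Finset.prod_congr rfl fun p hp => ?_
    have hp1 : (1 : ℝ) < p := by exact_mod_cast (Pool.Agent.H85.Rho.mem_pr.mp hp).2.one_lt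
    have h2 : (p : ℝ) - 1 ≠ 0 := by linarith
    have h3 : (p : ℝ) ≠ 0 := by linarith
    refine (eq_inv_of_mul_eq_one_left ?_).symm
    field_simp
    ring
  rw [e1]
  unfold GT
  rw [Finset.sum_mul_sum, ← Finset.sum_product']
  unfold Pool.Agent.H86.BtWeak.G
  set i : ℕ → Finset ℕ × ℕ := fun l =>
    (l.primeFactors.filter (· ≤ z), ∏ p ∈ l.primeFactors.filter (fun p => ¬ p ≤ z), p) with hi
  have hrec : ∀ l, Squarefree l → (∏ p ∈ (i l).1, p) * (i l).2 = l := by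
    intro l hl
    rw [hi]
    simp only
    rw [Finset.prod_filter_mul_prod_filter_not]
    exact Nat.prod_primeFactors_of_squarefree hl
  have hpf : ∀ l, ((i l).2).primeFactors = l.primeFactors.filter (fun p => ¬ p ≤ z) := by
    intro l
    exact Nat.primeFactors_prod fun p hp => Nat.prime_of_mem_primeFactors (Finset.mem_filter.mp hp).1
  have hinj : Set.InjOn i (Pool.Agent.H86.BtWeak.S R : Set ℕ) := by
    intro a ha b hb hab
    rw [← hrec a (mem_S.mp ha).2, ← hrec b (mem_S.mp hb).2, hab]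
  have hsub : (Pool.Agent.H86.BtWeak.S R).image i ⊆
      (Pool.Agent.H85.Rho.pr 0 z).powerset ×ˢ Tz z R := by
    intro x hx
    obtain ⟨l, hl, rfl⟩ := Finset.mem_image.mp hx
    rw [Finset.mem_product, Finset.mem_powerset]
    refine ⟨?_, ?_⟩
    · intro p hp
      have hp' := Finset.mem_filter.mp hp
      have hpp := Nat.prime_of_mem_primeFactors hp'.1
      exact Pool.Agent.H85.Rho.mem_pr.mpr ⟨⟨hpp.pos, hp'.2⟩, hpp⟩
    · rw [Tz, Finset.mem_filter]
      refine ⟨S_dvd hl ⟨∏ p ∈ (i l).1, p, ?_⟩, ?_⟩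
      · rw [mul_comm]; exact (hrec l (mem_S.mp hl).2).symm
      · intro p hp
        rw [hpf] at hp
        have := (Finset.mem_filter.mp hp).2
        omega
  have hval : ∀ l ∈ Pool.Agent.H86.BtWeak.S R, 1 / (Nat.totient l : ℝ) =
      (∏ p ∈ (i l).1, (1 / ((p : ℝ) - 1))) * (1 / (Nat.totient (i l).2 : ℝ)) := by
    intro l hl
    have hl2 := (mem_S.mp hl).2
    have hsq : Squarefree (i l).2 := hl2.squarefree_of_dvd ⟨∏ p ∈ (i l).1, p, by
      rw [mul_comm]; exact (hrec l hl2).symm⟩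
    rw [totient_of_squarefree hl2, totient_of_squarefree hsq, hpf]
    rw [one_div, one_div, ← Finset.prod_inv_distrib, ← Finset.prod_inv_distrib]
    simp only [one_div]
    exact (Finset.prod_filter_mul_prod_filter_not l.primeFactors (· ≤ z)
      (fun p : ℕ => ((p : ℝ) - 1)⁻¹)).symm
  rw [Finset.sum_congr rfl hval]
  rw [← Finset.sum_image (f := fun x : Finset ℕ × ℕ =>
    (∏ p ∈ x.1, (1 / ((p : ℝ) - 1))) * (1 / (Nat.totient x.2 : ℝ))) hinj]
  refine Finset.sum_le_sum_of_subset_of_nonneg hsub ?_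
  intro x hx _
  rw [Finset.mem_product, Finset.mem_powerset] at hx
  refine mul_nonneg (Finset.prod_nonneg fun p hp => ?_) (by positivity)
  have hp1 : (1 : ℝ) < p := by exact_mod_cast (Pool.Agent.H85.Rho.mem_pr.mp (hx.1 hp)).2.one_lt
  have : (0 : ℝ) < (p : ℝ) - 1 := by linarith
  positivity

end

end Pool.Agent.H51.Rho

namespace Pool.Agent.H85.Rho

open Pool.Agent.H51.Rho

theorem sieve_ap : ∃ C : ℝ, 0 < C ∧ ∀ z : ℕ, 2 ≤ z → ∀ G b X : ℕ, 2 ≤ X →
    (∀ l, l.Prime → z < l → ¬ l ∣ G) →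
    (((Finset.range X).filter (fun t => ∀ l ∈ pr z ⌊(X : ℝ) ^ (1 / 8 : ℝ)⌋₊,
      ¬ l ∣ b + G * t)).card : ℝ) ≤ C * X * Real.log z / Real.log X := by
  obtain ⟨C, hC, hmert⟩ := mertens_prod
  have hl2 : 0 < Real.log 2 := Real.log_pos (by norm_num)
  refine ⟨16 * C + 2 / Real.log 2, by positivity, ?_⟩
  intro z hz G b X hX hG
  set R := ⌊(X : ℝ) ^ (1 / 8 : ℝ)⌋₊ with hRdef
  have hX0 : (0 : ℝ) < X := by positivity
  have hX1 : (1 : ℝ) ≤ X := by exact_mod_cast (by omega : 1 ≤ X)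
  have hlogX : 0 < Real.log X := Real.log_pos (by norm_cast)
  have hlogz : 0 < Real.log z := Real.log_pos (by norm_cast)
  have hR : 1 ≤ R := by
    rw [hRdef, Nat.one_le_floor_iff]
    exact Real.one_le_rpow hX1 (by positivity)
  have hRle : (R : ℝ) ≤ (X : ℝ) ^ (1 / 8 : ℝ) := Nat.floor_le (by positivity)
  have hRgt : (X : ℝ) ^ (1 / 8 : ℝ) < R + 1 := Nat.lt_floor_add_one _
  have hmain := sieve_le (z := z) hR G b X hG
  have hlogR : 1 / 8 * Real.log X ≤ Real.log (R + 1) := by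
    rw [← Real.log_rpow hX0]
    exact Real.log_le_log (by positivity) hRgt.le
  have hG1 := Pool.Agent.H86.BtWeak.G_ge hR
  have hG2 := G_le z R hR
  have hP : 0 < ∏ p ∈ pr 0 z, (1 - (1 : ℝ) / p) := by
    refine Finset.prod_pos fun p hp => ?_
    have hp1 : (1 : ℝ) < p := by exact_mod_cast (mem_pr.mp hp).2.one_lt
    rw [sub_pos, div_lt_one (by linarith)]
    exact hp1
  have hm := hmert z hz
  have hT := GT_pos (good_Tz (z := z) hR)
  have hG3 : Real.log X / (16 * C * Real.log z) ≤ GT (Tz z R) := by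
    have h1 : (∏ p ∈ pr 0 z, (1 - (1 : ℝ) / p)) * (Real.log X / 16) ≤ GT (Tz z R) := by
      calc (∏ p ∈ pr 0 z, (1 - (1 : ℝ) / p)) * (Real.log X / 16)
          ≤ (∏ p ∈ pr 0 z, (1 - (1 : ℝ) / p)) *
            ((∏ p ∈ pr 0 z, (1 - (1 : ℝ) / p))⁻¹ * GT (Tz z R)) :=
            mul_le_mul_of_nonneg_left (by linarith) hP.le
        _ = GT (Tz z R) := by rw [← mul_assoc, mul_inv_cancel₀ hP.ne', one_mul]
    refine le_trans ?_ h1
    have h2 : 1 / (C * Real.log z) ≤ ∏ p ∈ pr 0 z, (1 - (1 : ℝ) / p) := by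
      rw [div_le_iff₀ (by positivity)]
      rw [div_le_iff₀ hlogz] at hm
      linarith
    calc Real.log X / (16 * C * Real.log z) = 1 / (C * Real.log z) * (Real.log X / 16) := by
          field_simp
      _ ≤ _ := mul_le_mul_of_nonneg_right h2 (by positivity)
  have t1 : (X : ℝ) / GT (Tz z R) ≤ 16 * C * X * Real.log z / Real.log X := by
    calc (X : ℝ) / GT (Tz z R) ≤ X / (Real.log X / (16 * C * Real.log z)) := by
          gcongr
      _ = 16 * C * X * Real.log z / Real.log X := by field_simp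
  have t2 : (R : ℝ) ^ 4 ≤ (X : ℝ) ^ (1 / 2 : ℝ) := by
    calc (R : ℝ) ^ 4 ≤ ((X : ℝ) ^ (1 / 8 : ℝ)) ^ 4 := by gcongr
      _ = (X : ℝ) ^ (1 / 2 : ℝ) := by
          rw [← Real.rpow_natCast, ← Real.rpow_mul hX0.le]
          congr 1; norm_num
  have t3 : (X : ℝ) ^ (1 / 2 : ℝ) ≤ 2 / Real.log 2 * X * Real.log z / Real.log X := by
    rw [le_div_iff₀ hlogX]
    have l1 : Real.log X ≤ (X : ℝ) ^ (1 / 2 : ℝ) / (1 / 2) :=
      Real.log_le_rpow_div hX0.le (by norm_num)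
    have l2 : Real.log 2 ≤ Real.log z := Real.log_le_log (by norm_num) (by exact_mod_cast hz)
    calc (X : ℝ) ^ (1 / 2 : ℝ) * Real.log X
        ≤ (X : ℝ) ^ (1 / 2 : ℝ) * ((X : ℝ) ^ (1 / 2 : ℝ) / (1 / 2)) := by gcongr
      _ = 2 * ((X : ℝ) ^ (1 / 2 : ℝ) * (X : ℝ) ^ (1 / 2 : ℝ)) := by ring
      _ = 2 * X := by
          rw [← Real.rpow_add hX0]; norm_num
      _ = 2 / Real.log 2 * X * Real.log 2 := by field_simp
      _ ≤ 2 / Real.log 2 * X * Real.log z := by gcongr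
  have t4 : (16 * C + 2 / Real.log 2) * X * Real.log z / Real.log X =
      16 * C * X * Real.log z / Real.log X + 2 / Real.log 2 * X * Real.log z / Real.log X := by
    ring
  rw [t4]
  linarith

end Pool.Agent.H85.Rho
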